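import Pool.Agent.N145.SX.Stm

/-!
`A¹`-uniruledness from the trace relation, for images of a product with a curve.
-/

set_option autoImplicit false
set_option linter.overlappingInstances false
set_option linter.unusedSectionVars false
set_option linter.unusedVariables false
set_option maxHeartbeats 4000000
set_option synthInstance.maxHeartbeats 400000

open Polynomial FF IsDedekindDomain IntermediateField Module

namespace Pool.Agent.N603.SX

open Pool.Agent.W603.LV Pool.Agent.W619.PQ Pool.Agent.N145.PC Pool.Agent.N145.PL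
open Pool.Agent.Y184.NT (trForm)
open Pool.Agent.N145.SX

/-- the coordinates of the product form a transcendence basis -/
theorem basis_zz {K : Type} [Field K] [Algebra ℂ K] {n : ℕ} {E C : IntermediateField ℂ K}
    (hE : Algebra.trdeg ℂ E = n) (hK : Algebra.trdeg ℂ K = (n + 1 : ℕ)) {x : Fin n → E}
    (hx : IsTranscendenceBasis ℂ x) {τ : C} (hτ : ¬ IsAlgebraic E (τ : K)) :
    IsTranscendenceBasis ℂ (zz K x τ) := by
  have hLK : Algebra.trdeg E K = (1 : ℕ) := Pool.Agent.Y174.trdeg_LK (r := 1) hE hK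
  have hxB : IsTranscendenceBasis E (fun _ : Fin (0 + 1) => (τ : K)) := by
    have h1 : AlgebraicIndependent E (fun _ : Fin (0 + 1) => (τ : K)) := by
      have : Unique (Fin (0 + 1)) := inferInstanceAs (Unique (Fin 1))
      rw [algebraicIndependent_unique_type_iff]
      exact hτ
    refine h1.isTranscendenceBasis_of_lift_trdeg_le_of_finite ?_
    rw [hLK]
    simp
  have hZ := Pool.Agent.Y174.basis_append hx hxB
  have h2 : Fin.append (algebraMap E K ∘ x) (fun _ : Fin (0 + 1) => (τ : K)) = zz K x τ := by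
    rw [Fin.append_right_eq_snoc]
    rfl
  rwa [h2] at hZ

/-- **The trace relation gives `A¹`-uniruledness.** -/
theorem ERASE (hclosed : S_CLOSED) (hfib : S_FIB) : S_ERASE := by
  classical
  intro K _ _ hess n E C _ hsup hE hK x hx τ hτ D0 hD0 BX B hB L _ _ _ _ _ BL hBL h hval htr
  obtain ⟨hcl1, -, hcl3⟩ := hclosed K n E C hsup hE hK
  have hL : Algebra.trdeg ℂ L = (n + 1 : ℕ) := Pool.Agent.Y184.NT.trdeg_below (K := K) hK
  have hessL : Algebra.EssFiniteType ℂ L := Pool.Agent.TH466.QG.ess_below (K := K)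
  -- the image in the product with the other factor
  obtain ⟨M, hM⟩ : ∃ M, M = IntermediateField.adjoin L (E : Set K) := ⟨_, rfl⟩
  have hle : E ≤ M.restrictScalars ℂ := by
    intro y hy
    rw [mem_restrictScalars, hM]
    exact IntermediateField.subset_adjoin L _ hy
  have hfinM : FiniteDimensional (M.restrictScalars ℂ : IntermediateField ℂ K) K := by
    have h1 : FiniteDimensional M K := inferInstance
    exact h1
  obtain ⟨E', hE'⟩ : ∃ E' : IntermediateField E K,
      E' = IntermediateField.extendScalars hle := ⟨_, rfl⟩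
  have hE'm : ∀ z : K, z ∈ M ↔ z ∈ E' := by
    intro z
    rw [hE', IntermediateField.mem_extendScalars, mem_restrictScalars]
  have hfinE : FiniteDimensional E' K := by
    have h1 : FiniteDimensional M K := inferInstance
    rw [hE']
    exact h1
  obtain ⟨t, ξ, ht, hξM, hξ, hZ, DE, Ef, hlift, hEfB, hEf⟩ :=
    exists_frame hK E hE (M.restrictScalars ℂ) hle
  -- the determinant
  have hzb : IsTranscendenceBasis ℂ (zz K x τ) := basis_zz hE hK hx (hcl1 τ hτ)
  have hzc : ∀ j : Fin n, zz K x τ j.castSucc = (x j : K) := fun j =>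
    Fin.snoc_castSucc (α := fun _ => K) _ _ _
  have hzl : zz K x τ (Fin.last n) = (τ : K) := Fin.snoc_last (α := fun _ => K) _ _
  obtain ⟨A, hA⟩ : ∃ A, A = (Matrix.of fun i j => Ef i (zz K x τ j) :
    Matrix (Fin (n + 1)) (Fin (n + 1)) K) := ⟨_, rfl⟩
  have hAij : ∀ i j, A i j = Ef i (zz K x τ j) := by
    intro i j
    rw [hA, Matrix.of_apply]
  have hform : ∀ g : K, trForm (zz K x τ) g Ef = A.det * g := by
    intro g
    rw [hA]
    rfl
  have hdt0 : A.det ≠ 0 := by
    obtain ⟨D1, hD1⟩ := Pool.Agent.W636.PG.exists_duals ℂ K (n + 1) _ hzb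
    intro h0
    have h1 := Pool.Agent.Y172.pluri_coord hZ hEf (Pool.Agent.Y184.NT.trForm_pluri (zz K x τ) 1) D1
    rw [hform, h0, zero_mul, mul_zero] at h1
    have h2 : (Matrix.of fun i j => D1 i (zz K x τ j) : Matrix (Fin (n + 1)) (Fin (n + 1)) K) =
        1 := by
      ext i j
      rw [Matrix.of_apply, hD1, Matrix.one_apply]
    change (Matrix.of fun i j => D1 i (zz K x τ j) :
      Matrix (Fin (n + 1)) (Fin (n + 1)) K).det * 1 = 0 at h1
    rw [h2, Matrix.det_one, mul_one] at h1
    exact one_ne_zero h1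
  obtain ⟨ε, hε0, hε⟩ := det_one (A := A) (i0 := Fin.last n) (by
    intro j hj
    obtain ⟨l, rfl⟩ := Fin.exists_castSucc_eq.2 hj
    rw [hAij, hzc]
    exact hEfB _ (x l).2)
  rw [hAij, hzl] at hε
  obtain ⟨mi, hmi⟩ : ∃ mi, mi = (A.submatrix Fin.castSucc (Fin.last n).succAbove).det := ⟨_, rfl⟩
  rw [← hmi] at hε
  have hmi0 : mi ≠ 0 := by
    intro h1
    apply hdt0
    rw [hε, h1, mul_zero]
  have hmiM : mi ∈ M := by
    rw [hmi, Matrix.det_apply]
    refine sum_mem fun σ _ => ?_
    rw [Units.smul_def, zsmul_eq_mul]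
    refine mul_mem (intCast_mem _ _) (prod_mem fun j _ => ?_)
    rw [Matrix.submatrix_apply, hAij, Fin.succAbove_last, hzc]
    have h3 : (x j : K) ∈ M.restrictScalars ℂ := hle (x j).2
    have h4 := hlift (σ j).castSucc ⟨_, h3⟩
    change Ef (σ j).castSucc (x j : K) = _ at h4
    rw [h4]
    exact (DE (σ j).castSucc ⟨_, h3⟩).2
  -- the value
  have hfin : ∀ φ ∈ HL D0 B,
      Algebra.trace E' K (Ef (Fin.last n) (τ : K) * (φ : K)) = 0 := by
    intro φ hφ
    obtain ⟨a, ha⟩ := hval M (φ : K) (fun i => (DE i : Derivation ℂ M M)) Ef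
      (fun i g => hlift i g)
    have h3 : Algebra.trace M K (h * (φ : K)) = 0 := by
      subst hM
      exact htr φ hφ
    have h4 : Algebra.trace M K (trForm (zz K x τ) (φ : K) Ef) = 0 := by
      rw [ha, ← Algebra.smul_def, map_smul, h3, smul_zero]
    rw [hform, hε] at h4
    have hc : ((ε : K) * mi) ∈ M := mul_mem (intCast_mem _ _) hmiM
    have hc0 : (⟨(ε : K) * mi, hc⟩ : M) ≠ 0 := by
      intro h5
      have h6 : (ε : K) * mi = 0 := congrArg Subtype.val h5
      rcases mul_eq_zero.1 h6 with h7 | h7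
      · have : CharZero K := charZero_of_injective_algebraMap (algebraMap ℂ K).injective
        exact hε0 (by exact_mod_cast h7)
      · exact hmi0 h7
    have h5 : (ε : K) * Ef (Fin.last n) (τ : K) * mi * (φ : K) =
        (⟨(ε : K) * mi, hc⟩ : M) • (Ef (Fin.last n) (τ : K) * (φ : K)) := by
      rw [Algebra.smul_def]
      change (ε : K) * Ef (Fin.last n) (τ : K) * mi * (φ : K) = ((ε : K) * mi) * _
      ring
    rw [h5, map_smul, smul_eq_mul] at h4
    exact trace_zero_of_mem M E' hE'm ((mul_eq_zero.1 h4).resolve_left hc0)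
  -- the fibre
  let Ω := AlgebraicClosure K
  let Λ : IntermediateField E Ω := algebraicClosure E Ω
  have hΛ : IsAlgClosed Λ := (algebraicClosure.isAlgClosure E Ω).isAlgClosed
  have hΛalg : Algebra.IsAlgebraic E Λ := inferInstance
  let FF : IntermediateField Λ Ω := IntermediateField.adjoin Λ (Set.range (algebraMap K Ω))
  have hTL : IsScalarTower ℂ E Ω := IsScalarTower.of_algebraMap_eq fun z => by
    rw [IsScalarTower.algebraMap_apply ℂ K Ω]
    rfl
  have hTΛ : IsScalarTower ℂ Λ Ω := IsScalarTower.of_algebraMap_eq fun z => by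
    rw [IsScalarTower.algebraMap_apply ℂ E Ω]
    rfl
  let φ0 : K →+* FF :=
    { toFun := fun z => ⟨algebraMap K Ω z, IntermediateField.subset_adjoin _ _ ⟨z, rfl⟩⟩
      map_one' := Subtype.ext (map_one _)
      map_mul' := fun a b => Subtype.ext (map_mul _ _ _)
      map_zero' := Subtype.ext (map_zero _)
      map_add' := fun a b => Subtype.ext (map_add _ _ _) }
  let iKF : Algebra K FF := φ0.toAlgebra
  have hKF : ∀ z : K, ((algebraMap K FF z : FF) : Ω) = algebraMap K Ω z := fun z => rfl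
  have hT2 : IsScalarTower ℂ K FF := IsScalarTower.of_algebraMap_eq fun z => by
    apply Subtype.ext
    rw [hKF, ← IsScalarTower.algebraMap_apply ℂ K Ω]
    rfl
  have hT5 : IsScalarTower ℂ Λ FF := inferInstance
  have hT4 : IsScalarTower E Λ FF := IsScalarTower.of_algebraMap_eq fun z =>
    Subtype.ext rfl
  have hgenF : IntermediateField.adjoin Λ (Set.range (algebraMap K FF)) = ⊤ := by
    have h1 : (IntermediateField.adjoin Λ (Set.range (algebraMap K FF))).map FF.val =
        (⊤ : IntermediateField Λ FF).map FF.val := by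
      rw [IntermediateField.adjoin_map, ← AlgHom.fieldRange_eq_map,
        IntermediateField.fieldRange_val]
      congr 1
      ext z
      simp only [Set.mem_image, Set.mem_range]
      constructor
      · rintro ⟨_, ⟨y, rfl⟩, rfl⟩
        exact ⟨y, rfl⟩
      · rintro ⟨y, rfl⟩
        exact ⟨_, ⟨y, rfl⟩, rfl⟩
    exact IntermediateField.map_injective _ h1
  have hLK : Algebra.trdeg E K = (1 : ℕ) := Pool.Agent.Y174.trdeg_LK (r := 1) hE hK
  have htrF : Algebra.trdeg Λ FF = (1 : ℕ) :=
    Pool.Agent.Y174.trdeg_F (L := E) (K := K) hLK hgenF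
  have hessF : Algebra.EssFiniteType Λ FF := Pool.Agent.Y174.ess_F (k := ℂ) (K := K) hess hgenF
  have hFF : IsFF Λ FF := ⟨hessF, by rw [htrF]; simp⟩
  obtain ⟨s, hs, hsM, hsB⟩ := hfib K n E C hsup hE hK τ hτ D0 hD0 B hB E' t ht ξ
    ((hE'm ξ).1 hξM) hξ hZ Ef hEf hfin Λ FF (fun z hz => Subtype.ext rfl) hgenF
  have hΛtr : Algebra.trdeg ℂ Λ = (n : ℕ) := by
    have h1 := trdeg_add_eq ℂ E (A := Λ)
    have h2 : Algebra.trdeg E Λ = 0 := trdeg_eq_zero
    rw [h2, add_zero, hE] at h1
    exact h1.symm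
  let ψ : L →ₐ[ℂ] FF := (IsScalarTower.toAlgHom ℂ K FF).comp (IsScalarTower.toAlgHom ℂ L K)
  have hψ : ∀ z : L, ψ z = algebraMap K FF (algebraMap L K z) := fun z => rfl
  refine a1 n L Λ FF hL hΛtr ψ s hs (fun e => ?_) BL ?_
  · rw [hψ]
    exact hsM _ ((hE'm _).1 (M.algebraMap_mem e))
  · intro Q v e he hQv hBv
    -- the place of `K`
    obtain ⟨Q', hQ'⟩ := exists_rc (k := ℂ) Q
    obtain ⟨tv, -, htv⟩ := v.surj
    obtain ⟨e1, P', hP'⟩ := exists_over (K := K) Q' ⟨algebraMap L K tv, by
      intro h1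
      rw [hQ'] at h1
      have h3 := hQv tv
      rw [hψ, h1, htv] at h3
      have h4 : (e : ℤ) ≠ 0 := by exact_mod_cast he.ne'
      omega⟩
    obtain ⟨v', e2, hv'⟩ := Pool.Agent.Y172.exists_below (K := L) P'
    have hvv : v = v' := by
      have h1 : ∀ f, (e : ℤ) * v.ord f = (e1 * e2 : ℕ) * v'.ord f := by
        intro f
        rw [← hQv, hψ, ← hQ', hP'.2, hv'.2]
        push_cast
        ring
      obtain ⟨f', -, hf'⟩ := v'.surj
      have h3 := h1 tv
      have h4 := h1 f'
      rw [htv, mul_one] at h3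
      rw [hf', mul_one] at h4
      have h5 : ((e1 * e2 : ℕ) : ℤ) ∣ e := ⟨_, h3⟩
      have h6 : (e : ℤ) ∣ (e1 * e2 : ℕ) := ⟨_, h4.symm⟩
      have h7 : e = e1 * e2 := Nat.dvd_antisymm (by exact_mod_cast h6) (by exact_mod_cast h5)
      refine Pool.Agent.Y172.place_ext fun f => ?_
      have h8 := h1 f
      rw [← h7] at h8
      have he' : (e : ℤ) ≠ 0 := by exact_mod_cast he.ne'
      exact mul_left_cancel₀ he' h8
    rw [← hvv] at hv'
    rcases hBL v P' e2 hv' hBv with ⟨p, e3, -, hp3⟩ | ⟨p, hp, e3, hp3⟩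
    · exfalso
      obtain ⟨w, hw0, hw⟩ := p.surj
      have h1 : Q.ord (algebraMap K FF (w : K)) = (e1 * e3 : ℕ) * p.ord w := by
        rw [← hQ', hP'.2]
        have h1 := hp3.2 w
        have h3 : algebraMap E K w = (w : K) := rfl
        rw [h3] at h1
        rw [h1]
        push_cast
        ring
      have hpos : 0 < e1 * e3 := Nat.mul_pos hP'.1 hp3.1
      have h3 : algebraMap K FF (w : K) = algebraMap Λ FF (algebraMap E Λ w) := Subtype.ext rfl
      have h4 : algebraMap E Λ w ≠ 0 := by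
        rw [Ne, map_eq_zero]
        exact hw0
      rw [h3, Q.ord_const h4, hw] at h1
      have h6 : ((e1 * e3 : ℕ) : ℤ) ≠ 0 := by exact_mod_cast hpos.ne'
      omega
    · have hQp : ∀ z : C, Q.ord (algebraMap K FF (z : K)) = (e1 * e3 : ℕ) * p.ord z := by
        intro z
        rw [← hQ', hP'.2]
        have h1 := hp3.2 z
        have h3 : algebraMap C K z = (z : K) := rfl
        rw [h3] at h1
        rw [h1]
        push_cast
        ring
      exact hsB Q ⟨p, hp, e1 * e3, Nat.mul_pos hP'.1 hp3.1, hQp⟩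

end Pool.Agent.N603.SX
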